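import Pool.Agent.Lib.MP_8d8c46_lc.SOS.Defs

/-!
Semidefinite programming relaxations which are equivariant under a group of permutations of the
vertices.
-/

set_option autoImplicit false

open Finset
open scoped Classical

namespace Pool.Agent.Lib.MP_8d8c46_lc.SG

/-- A semidefinite programming relaxation for finding a set of `δ|V|` vertices of small expansion
in a `d`-regular graph on `V` which is equivariant under the group `Γ` of permutations of `V`. The
feasible region, the set of all positive semidefinite `size × size` matrices in the affine space
`space`, does not depend on the graph; every set `S` of `δ|V|` vertices is mapped to a point of it,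
and the graph `G` enters only through an affine objective function whose value at the point of `S`
is the expansion of `S` in `G`. A permutation `σ` in `Γ` acts on the matrices by
`Y ↦ ρ(σ) Y ρ(σ)ᵀ` for some representation `ρ` of the group `Γ`, and maps the point of `S` to the
point of `σ(S)`. -/
structure EquivariantSDP (V : Type) [Fintype V] (Γ : Subgroup (Equiv.Perm V)) (δ : ℚ) (d : ℕ) where
  size : ℕ
  space : AffineSubspace ℝ (Matrix (Fin size) (Fin size) ℝ)
  point : Finset V → Matrix (Fin size) (Fin size) ℝ
  feasible : ∀ S : Finset V, (S.card : ℚ) = δ * Fintype.card V →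
    point S ∈ space ∧ (point S).PosSemidef
  obj : SimpleGraph V → Matrix (Fin size) (Fin size) ℝ →ᵃ[ℝ] ℝ
  exact : ∀ G : SimpleGraph V, Regular G d → ∀ S : Finset V,
    (S.card : ℚ) = δ * Fintype.card V → obj G (point S) = (expansion G d S : ℝ)
  rep : Γ →* Matrix (Fin size) (Fin size) ℝ
  equivariant : ∀ (σ : Γ) (S : Finset V), (S.card : ℚ) = δ * Fintype.card V →
    point (S.map (σ : Equiv.Perm V).toEmbedding) = rep σ * point S * (rep σ).transpose

/-- A relaxation which is equivariant under all permutations is equivariant under every group of
permutations. -/
def EquivariantSDP.ofSymmetric {V : Type} [Fintype V] {δ : ℚ} {d : ℕ}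
    (P : SOS.EquivariantSDP V δ d) (Γ : Subgroup (Equiv.Perm V)) : EquivariantSDP V Γ δ d where
  size := P.size
  space := P.space
  point := P.point
  feasible := P.feasible
  obj := P.obj
  exact := P.exact
  rep := P.rep.comp Γ.subtype
  equivariant := fun σ S hS => P.equivariant σ S hS

end Pool.Agent.Lib.MP_8d8c46_lc.SG
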