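import Pool.Agent.Lib.MP_8d8c46_lc.Mg.G015

/-!
Small real representations of a power `(Perm Lab) ^ E` of the symmetric group of the four labels
are spanned by vectors which are fixed by the translations of the labels of all but few elements
of `E`.
-/

set_option autoImplicit false

open scoped Classical
open Equiv Module

namespace Pool.Agent.Lib.MP_8d8c46_lc.SG

section dim
variable {M : Type*} [AddCommGroup M] [Module ℝ M] [FiniteDimensional ℝ M]

/-- Let `t i` be involutions and `H i` sets of operators such that `t i` commutes with `H j` for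
`i ≠ j` and has both eigenvalues on every nonzero subspace invariant under `H i`. A nonzero
invariant space has dimension at least `2 ^ |T|`. -/
theorem two_pow_le_card {ι : Type*} (H : ι → Set (Module.End ℝ M)) (t : ι → Module.End ℝ M)
    (T : Finset ι) : ∀ N : Submodule ℝ M, N ≠ ⊥ →
    (∀ i ∈ T, ∀ h ∈ H i, ∀ v ∈ N, h v ∈ N) → (∀ i ∈ T, t i ∈ H i) →
    (∀ i ∈ T, ∀ v, t i (t i v) = v) →
    (∀ i ∈ T, ∀ j ∈ T, i ≠ j → ∀ h ∈ H j, ∀ v, t i (h v) = h (t i v)) →
    (∀ i ∈ T, ∀ N' ≤ N, N' ≠ ⊥ → (∀ h ∈ H i, ∀ v ∈ N', h v ∈ N') →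
      (∃ v ∈ N', v ≠ 0 ∧ t i v = v) ∧ ∃ v ∈ N', v ≠ 0 ∧ t i v = -v) →
    2 ^ T.card ≤ finrank ℝ N := by
  induction T using Finset.induction_on with
  | empty =>
    intro N hN _ _ _ _ _
    have : Nontrivial N := (Submodule.nontrivial_iff_ne_bot).2 hN
    have := Module.finrank_pos (R := ℝ) (M := N)
    rw [Finset.card_empty, pow_zero]
    exact this
  | insert a T ha ih =>
    intro N hN hH ht htt hcomm hkey
    have hat : a ∈ insert a T := Finset.mem_insert_self _ _
    have hsub : ∀ i ∈ T, i ∈ insert a T := fun i hi => Finset.mem_insert_of_mem hi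
    have hne' : ∀ i ∈ T, a ≠ i := fun i hi h => ha (h ▸ hi)
    set P : Submodule ℝ M := N ⊓ LinearMap.ker (t a - 1) with hP
    set Q : Submodule ℝ M := N ⊓ LinearMap.ker (t a + 1) with hQ
    have memP : ∀ v, v ∈ P ↔ v ∈ N ∧ t a v = v := by
      intro v
      rw [hP, Submodule.mem_inf, LinearMap.mem_ker, LinearMap.sub_apply, Module.End.one_apply,
        sub_eq_zero]
    have memQ : ∀ v, v ∈ Q ↔ v ∈ N ∧ t a v = -v := by
      intro v
      rw [hQ, Submodule.mem_inf, LinearMap.mem_ker, LinearMap.add_apply, Module.End.one_apply,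
        add_eq_zero_iff_eq_neg]
    obtain ⟨⟨v, hv, hv0, hv1⟩, ⟨w, hw, hw0, hw1⟩⟩ := hkey a hat N le_rfl hN (hH a hat)
    have hPne : P ≠ ⊥ := (Submodule.ne_bot_iff P).2 ⟨v, (memP v).2 ⟨hv, hv1⟩, hv0⟩
    have hQne : Q ≠ ⊥ := (Submodule.ne_bot_iff Q).2 ⟨w, (memQ w).2 ⟨hw, hw1⟩, hw0⟩
    have h1 : 2 ^ T.card ≤ finrank ℝ P := by
      refine ih P hPne ?_ (fun i hi => ht i (hsub i hi)) (fun i hi => htt i (hsub i hi))
        (fun i hi j hj => hcomm i (hsub i hi) j (hsub j hj)) ?_
      · intro i hi h hh u hu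
        obtain ⟨hu1, hu2⟩ := (memP u).1 hu
        exact (memP _).2 ⟨hH i (hsub i hi) h hh u hu1, by
          rw [hcomm a hat i (hsub i hi) (hne' i hi) h hh u, hu2]⟩
      · intro i hi N' hN'
        exact hkey i (hsub i hi) N' (hN'.trans inf_le_left)
    have h2 : 2 ^ T.card ≤ finrank ℝ Q := by
      refine ih Q hQne ?_ (fun i hi => ht i (hsub i hi)) (fun i hi => htt i (hsub i hi))
        (fun i hi j hj => hcomm i (hsub i hi) j (hsub j hj)) ?_
      · intro i hi h hh u hu
        obtain ⟨hu1, hu2⟩ := (memQ u).1 hu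
        exact (memQ _).2 ⟨hH i (hsub i hi) h hh u hu1, by
          rw [hcomm a hat i (hsub i hi) (hne' i hi) h hh u, hu2, map_neg]⟩
      · intro i hi N' hN'
        exact hkey i (hsub i hi) N' (hN'.trans inf_le_left)
    have h3 : P ⊓ Q = ⊥ := by
      rw [Submodule.eq_bot_iff]
      intro v hv
      obtain ⟨hv1, hv2⟩ := Submodule.mem_inf.1 hv
      have e1 := ((memP v).1 hv1).2
      have e2 := ((memQ v).1 hv2).2
      have : (2 : ℝ) • v = 0 := by
        calc (2 : ℝ) • v = v + v := two_smul _ _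
          _ = t a v - t a v := by rw [sub_eq_add_neg]; nth_rewrite 2 [e2]; rw [neg_neg, e1]
          _ = 0 := sub_self _
      exact (smul_eq_zero.1 this).resolve_left (by norm_num)
    have h4 : finrank ℝ (P ⊔ Q : Submodule ℝ M) + finrank ℝ (P ⊓ Q : Submodule ℝ M) =
        finrank ℝ P + finrank ℝ Q := Submodule.finrank_sup_add_finrank_inf_eq P Q
    rw [h3, finrank_bot, add_zero] at h4
    have h5 : finrank ℝ (P ⊔ Q : Submodule ℝ M) ≤ finrank ℝ N :=
      Submodule.finrank_mono (sup_le inf_le_left inf_le_left)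
    rw [Finset.card_insert_of_notMem ha, pow_succ]
    omega

end dim

section rep
variable {E : Type*} {M : Type*} [AddCommGroup M] [Module ℝ M]

/-- the action of a permutation of the labels of `e` -/
noncomputable def act (ρ : (E → Perm Lab) →* Module.End ℝ M) (e : E) (g : Perm Lab) :
    Module.End ℝ M := ρ (Pi.mulSingle e g)

/-- the average over the translations of the labels of `e` -/
noncomputable def avg (ρ : (E → Perm Lab) →* Module.End ℝ M) (e : E) : Module.End ℝ M :=
  (4 : ℝ)⁻¹ • ∑ c : Lab, act ρ e (Equiv.addRight c)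

/-- the translations and the linear maps acting on the labels of `e` -/
def ops (ρ : (E → Perm Lab) →* Module.End ℝ M) (e : E) : Set (Module.End ℝ M) :=
  Set.range (fun c : Lab => act ρ e (Equiv.addRight c)) ∪
    Set.range (fun L : Lab ≃+ Lab => act ρ e L.toEquiv)

variable (ρ : (E → Perm Lab) →* Module.End ℝ M)

lemma act_mul (e : E) (g h : Perm Lab) (v : M) : act ρ e g (act ρ e h v) = act ρ e (g * h) v := by
  unfold act
  rw [← Module.End.mul_apply, ← map_mul, Pi.mulSingle_mul]

lemma act_one (e : E) (v : M) : act ρ e 1 v = v := by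
  unfold act
  rw [Pi.mulSingle_one, map_one, Module.End.one_apply]

lemma act_comm {e e' : E} (h : e ≠ e') (g g' : Perm Lab) (v : M) :
    act ρ e g (act ρ e' g' v) = act ρ e' g' (act ρ e g v) := by
  unfold act
  rw [← Module.End.mul_apply, ← Module.End.mul_apply, ← map_mul, ← map_mul,
    (Pi.mulSingle_commute (f := fun _ : E => Perm Lab) h g g').eq]

lemma avg_apply (e : E) (v : M) :
    avg ρ e v = (4 : ℝ)⁻¹ • ∑ c : Lab, act ρ e (Equiv.addRight c) v := by
  unfold avg
  rw [LinearMap.smul_apply, LinearMap.sum_apply]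

lemma addRight_mul (c c' : Lab) : (Equiv.addRight c : Perm Lab) * Equiv.addRight c' =
    Equiv.addRight (c + c') := by
  ext x : 1
  rw [Perm.mul_apply, Equiv.coe_addRight, Equiv.coe_addRight, Equiv.coe_addRight]
  dsimp only
  rw [add_assoc, add_comm c' c]

lemma lin_mul (L : Lab ≃+ Lab) (c : Lab) : (L.toEquiv : Perm Lab) * Equiv.addRight c =
    Equiv.addRight (L c) * L.toEquiv := by
  ext x : 1
  rw [Perm.mul_apply, Perm.mul_apply, Equiv.coe_addRight, Equiv.coe_addRight]
  exact map_add L x c

lemma act_avg (e : E) (c : Lab) (v : M) : act ρ e (Equiv.addRight c) (avg ρ e v) = avg ρ e v := by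
  rw [avg_apply, map_smul, map_sum]
  congr 1
  have h1 : ∀ c' : Lab, act ρ e (Equiv.addRight c) (act ρ e (Equiv.addRight c') v) =
      act ρ e (Equiv.addRight (c + c')) v := by
    intro c'
    rw [act_mul, addRight_mul]
  rw [Finset.sum_congr rfl fun c' _ => h1 c']
  exact Equiv.sum_comp (Equiv.addLeft c) fun c' : Lab => act ρ e (Equiv.addRight c') v

lemma avg_avg (e : E) (v : M) : avg ρ e (avg ρ e v) = avg ρ e v := by
  rw [avg_apply ρ e (avg ρ e v), Finset.sum_congr rfl fun c _ => act_avg ρ e c v,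
    Finset.sum_const, ← Nat.cast_smul_eq_nsmul ℝ, smul_smul]
  have h : ((Finset.univ : Finset Lab).card : ℝ) = 4 := by
    rw [Finset.card_univ, Fintype.card_prod, ZMod.card]
    norm_num
  rw [h, inv_mul_cancel₀ (by norm_num), one_smul]

lemma ops_avg {e : E} {h : Module.End ℝ M} (hh : h ∈ ops ρ e) (e' : E) (v : M) :
    h (avg ρ e' v) = avg ρ e' (h v) := by
  by_cases hee : e = e'
  · subst hee
    rcases hh with ⟨c, rfl⟩ | ⟨L, rfl⟩
    · dsimp only
      rw [avg_apply, avg_apply, map_smul, map_sum]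
      congr 1
      refine Finset.sum_congr rfl fun c' _ => ?_
      rw [act_mul, act_mul, addRight_mul, addRight_mul, add_comm]
    · dsimp only
      rw [avg_apply, avg_apply, map_smul, map_sum]
      congr 1
      have h1 : ∀ c' : Lab, act ρ e L.toEquiv (act ρ e (Equiv.addRight c') v) =
          act ρ e (Equiv.addRight (L c')) (act ρ e L.toEquiv v) := by
        intro c'
        rw [act_mul, act_mul, lin_mul]
      rw [Finset.sum_congr rfl fun c' _ => h1 c']
      exact Equiv.sum_comp L.toEquiv fun c' : Lab => act ρ e (Equiv.addRight c') (act ρ e L.toEquiv v)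
  · rcases hh with ⟨c, rfl⟩ | ⟨L, rfl⟩ <;>
    · dsimp only
      rw [avg_apply, avg_apply, map_smul, map_sum]
      congr 1
      refine Finset.sum_congr rfl fun c' _ => ?_
      rw [act_comm ρ hee]

lemma avg_comm (e e' : E) (v : M) : avg ρ e (avg ρ e' v) = avg ρ e' (avg ρ e v) := by
  rw [avg_apply ρ e (avg ρ e' v), avg_apply ρ e v, map_smul, map_sum]
  congr 1
  refine Finset.sum_congr rfl fun c _ => ?_
  exact ops_avg ρ (Or.inl ⟨c, rfl⟩) e' v

/-- the vectors without invariants at the elements of `T` which are fixed by the translations at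
the other elements -/
noncomputable def part (T : Finset E) : Submodule ℝ M where
  carrier := {v | (∀ e ∈ T, avg ρ e v = 0) ∧ ∀ e ∉ T, avg ρ e v = v}
  add_mem' := by
    rintro v w ⟨h1, h2⟩ ⟨h3, h4⟩
    refine ⟨fun e he => ?_, fun e he => ?_⟩
    · rw [map_add, h1 e he, h3 e he, add_zero]
    · rw [map_add, h2 e he, h4 e he]
  zero_mem' := ⟨fun e _ => map_zero _, fun e _ => map_zero _⟩
  smul_mem' := by
    rintro r v ⟨h1, h2⟩
    refine ⟨fun e he => ?_, fun e he => ?_⟩
    · rw [map_smul, h1 e he, smul_zero]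
    · rw [map_smul, h2 e he]

lemma mem_part {T : Finset E} {v : M} :
    v ∈ part ρ T ↔ (∀ e ∈ T, avg ρ e v = 0) ∧ ∀ e ∉ T, avg ρ e v = v := Iff.rfl

lemma ops_part {T : Finset E} {e : E} {h : Module.End ℝ M} (hh : h ∈ ops ρ e) {v : M}
    (hv : v ∈ part ρ T) : h v ∈ part ρ T := by
  obtain ⟨h1, h2⟩ := (mem_part ρ).1 hv
  refine (mem_part ρ).2 ⟨fun e' he' => ?_, fun e' he' => ?_⟩
  · rw [← ops_avg ρ hh, h1 e' he', map_zero]
  · rw [← ops_avg ρ hh, h2 e' he']

lemma mem_span_part (F : Finset E) (v : M) :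
    v ∈ Submodule.span ℝ {u : M | ∃ T ⊆ F, (∀ e ∈ T, avg ρ e u = 0) ∧
      ∀ e ∈ F, e ∉ T → avg ρ e u = u} := by
  induction F using Finset.induction_on with
  | empty =>
    refine Submodule.subset_span ⟨∅, Finset.Subset.refl _, ?_, ?_⟩
    · intro e he
      exact absurd he (Finset.notMem_empty e)
    · intro e he
      exact absurd he (Finset.notMem_empty e)
  | insert a F ha ih =>
    refine (Submodule.span_le.2 ?_) ih
    rintro u ⟨T, hT, h1, h2⟩
    have haT : a ∉ T := fun h => ha (hT h)
    have hu : u = avg ρ a u + (u - avg ρ a u) := by abel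
    rw [hu]
    refine Submodule.add_mem _ (Submodule.subset_span ⟨T, hT.trans (Finset.subset_insert _ _),
      ?_, ?_⟩) (Submodule.subset_span ⟨insert a T, Finset.insert_subset_insert a hT, ?_, ?_⟩)
    · intro e he
      rw [avg_comm, h1 e he, map_zero]
    · intro e he heT
      rcases Finset.mem_insert.1 he with rfl | he
      · exact avg_avg ρ e u
      · rw [avg_comm, h2 e he heT]
    · intro e he
      rcases Finset.mem_insert.1 he with rfl | he
      · rw [map_sub, avg_avg, sub_self]
      · rw [map_sub, avg_comm, h1 e he, map_zero, sub_zero]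
    · intro e he heT
      rw [Finset.mem_insert, not_or] at heT
      rcases Finset.mem_insert.1 he with rfl | he
      · exact absurd rfl heT.1
      · rw [map_sub, avg_comm, h2 e he heT.2]

/-- the linear map `(a, b) ↦ (b, a)` -/
def linA : Lab ≃+ Lab := AddEquiv.prodComm

/-- the linear map `(a, b) ↦ (a, a + b)` -/
def linB : Lab ≃+ Lab where
  toFun x := (x.1, x.1 + x.2)
  invFun x := (x.1, x.1 + x.2)
  left_inv := by decide
  right_inv := by decide
  map_add' := by decide

lemma linA_apply : linA ((1, 0) : Lab) = (0, 1) := rfl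

lemma linB_apply : linB ((1, 0) : Lab) = (1, 1) := rfl

/-- On a nonzero space without invariants under the translations at `e` the translation by `(1, 0)`
has both eigenvalues. -/
lemma eigen {e : E} {N' : Submodule ℝ M} (hne : N' ≠ ⊥) (hinv : ∀ h ∈ ops ρ e, ∀ v ∈ N', h v ∈ N')
    (h0 : ∀ v ∈ N', avg ρ e v = 0) :
    (∃ v ∈ N', v ≠ 0 ∧ act ρ e (Equiv.addRight ((1, 0) : Lab)) v = v) ∧
      ∃ v ∈ N', v ≠ 0 ∧ act ρ e (Equiv.addRight ((1, 0) : Lab)) v = -v := by
  obtain ⟨w, hw, hw0⟩ := (Submodule.ne_bot_iff N').1 hne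
  have htt : ∀ v, act ρ e (Equiv.addRight ((1, 0) : Lab))
      (act ρ e (Equiv.addRight ((1, 0) : Lab)) v) = v := by
    intro v
    rw [act_mul, addRight_mul]
    have h1 : ((1, 0) : Lab) + (1, 0) = 0 := by decide
    have h2 : (Equiv.addRight (0 : Lab) : Perm Lab) = 1 := by
      ext x : 1
      rw [Equiv.coe_addRight, Perm.one_apply]
      dsimp only
      rw [add_zero]
    rw [h1, h2, act_one]
  have ht : ∀ v ∈ N', act ρ e (Equiv.addRight ((1, 0) : Lab)) v ∈ N' := fun v hv =>
    hinv _ (Or.inl ⟨_, rfl⟩) v hv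
  -- conjugation of a scalar action
  have hconj : ∀ (s : ℝ), (∀ v ∈ N', act ρ e (Equiv.addRight ((1, 0) : Lab)) v = s • v) →
      ∀ L : Lab ≃+ Lab, ∀ v ∈ N', act ρ e (Equiv.addRight (L (1, 0))) v = s • v := by
    intro s hs L v hv
    obtain ⟨v', hv'⟩ : ∃ v', v' = act ρ e L.symm.toEquiv v := ⟨_, rfl⟩
    have hv'N : v' ∈ N' := by
      rw [hv']
      exact hinv _ (Or.inr ⟨L.symm, rfl⟩) v hv
    have h1 : act ρ e L.toEquiv v' = v := by
      rw [hv', act_mul]
      have h2 : (L.toEquiv : Perm Lab) * L.symm.toEquiv = 1 := by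
        ext x : 1
        rw [Perm.mul_apply, Perm.one_apply]
        exact L.apply_symm_apply x
      rw [h2, act_one]
    calc act ρ e (Equiv.addRight (L (1, 0))) v
        = act ρ e (Equiv.addRight (L (1, 0))) (act ρ e L.toEquiv v') := by rw [h1]
      _ = act ρ e L.toEquiv (act ρ e (Equiv.addRight ((1, 0) : Lab)) v') := by
          rw [act_mul, act_mul, lin_mul]
      _ = s • v := by rw [hs v' hv'N, map_smul, h1]
  constructor
  · by_contra hcon
    push Not at hcon
    have h1 : ∀ v ∈ N', act ρ e (Equiv.addRight ((1, 0) : Lab)) v = (-1 : ℝ) • v := by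
      intro v hv
      have h2 : v + act ρ e (Equiv.addRight ((1, 0) : Lab)) v = 0 := by
        by_contra h3
        exact hcon _ (N'.add_mem hv (ht v hv)) h3 (by rw [map_add, htt, add_comm])
      rw [neg_one_smul]
      exact (neg_eq_of_add_eq_zero_right h2).symm
    have hA := hconj _ h1 linA w hw
    have hB := hconj _ h1 linB w hw
    rw [linA_apply] at hA
    rw [linB_apply] at hB
    have h3 : ((1, 0) : Lab) + (0, 1) = (1, 1) := by decide
    rw [← h3, ← addRight_mul, ← act_mul, hA, map_smul, h1 w hw, smul_smul] at hB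
    apply hw0
    have h4 : (2 : ℝ) • w = 0 := by
      have h5 : ((-1 : ℝ) * -1) • w - (-1 : ℝ) • w = 0 := by rw [hB, sub_self]
      rw [← sub_smul] at h5
      have h6 : ((-1 : ℝ) * -1 - -1) = 2 := by norm_num
      rwa [h6] at h5
    exact (smul_eq_zero.1 h4).resolve_left (by norm_num)
  · by_contra hcon
    push Not at hcon
    have h1 : ∀ v ∈ N', act ρ e (Equiv.addRight ((1, 0) : Lab)) v = (1 : ℝ) • v := by
      intro v hv
      have h2 : v - act ρ e (Equiv.addRight ((1, 0) : Lab)) v = 0 := by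
        by_contra h3
        exact hcon _ (N'.sub_mem hv (ht v hv)) h3 (by rw [map_sub, htt, neg_sub])
      rw [one_smul]
      exact (sub_eq_zero.1 h2).symm
    have hA := hconj _ h1 linA w hw
    have hB := hconj _ h1 linB w hw
    have hC := h1 w hw
    rw [linA_apply] at hA
    rw [linB_apply] at hB
    apply hw0
    have h2 := h0 w hw
    rw [avg_apply] at h2
    have h3 : ∀ c : Lab, act ρ e (Equiv.addRight c) w = w := by
      have h4 : ∀ c : Lab, c = 0 ∨ c = (1, 0) ∨ c = (0, 1) ∨ c = (1, 1) := by decide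
      have h5 : (Equiv.addRight (0 : Lab) : Perm Lab) = 1 := by
        ext x : 1
        rw [Equiv.coe_addRight, Perm.one_apply]
        dsimp only
        rw [add_zero]
      intro c
      rcases h4 c with rfl | rfl | rfl | rfl
      · rw [h5, act_one]
      · rw [hC, one_smul]
      · rw [hA, one_smul]
      · rw [hB, one_smul]
    rw [Finset.sum_congr rfl fun c _ => h3 c, Finset.sum_const, ← Nat.cast_smul_eq_nsmul ℝ,
      smul_smul] at h2
    have h : ((Finset.univ : Finset Lab).card : ℝ) = 4 := by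
      rw [Finset.card_univ, Fintype.card_prod, ZMod.card]
      norm_num
    rw [h, inv_mul_cancel₀ (by norm_num), one_smul] at h2
    exact h2

/-- A part which is not zero has dimension at least `2 ^ |T|`. -/
theorem two_pow_le_part [FiniteDimensional ℝ M] {T : Finset E} (hne : part ρ T ≠ ⊥) :
    2 ^ T.card ≤ finrank ℝ (part ρ T) := by
  refine two_pow_le_card (ops ρ) (fun e => act ρ e (Equiv.addRight ((1, 0) : Lab))) T _ hne
    (fun e _ h hh v hv => ops_part ρ hh hv) (fun e _ => Or.inl ⟨_, rfl⟩) ?_ ?_ ?_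
  · intro e _ v
    rw [act_mul, addRight_mul]
    have h1 : ((1, 0) : Lab) + (1, 0) = 0 := by decide
    have h2 : (Equiv.addRight (0 : Lab) : Perm Lab) = 1 := by
      ext x : 1
      rw [Equiv.coe_addRight, Perm.one_apply]
      dsimp only
      rw [add_zero]
    rw [h1, h2, act_one]
  · rintro e _ e' _ hee h (⟨c, rfl⟩ | ⟨L, rfl⟩) v
    · exact act_comm ρ hee _ _ v
    · exact act_comm ρ hee _ _ v
  · intro e he N' hN' hN'ne hinv
    exact eigen ρ hN'ne hinv fun v hv => ((mem_part ρ).1 (hN' hv)).1 e he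

/-- A vector of the part of `T` is fixed by the translations which are trivial on `T`. -/
lemma fixed_of_mem_part [Fintype E] {T : Finset E} {u : M} (hu : u ∈ part ρ T) (y : E → Lab)
    (hy : ∀ e ∈ T, y e = 0) : ρ (fun e => Equiv.addRight (y e)) u = u := by
  obtain ⟨-, h2⟩ := (mem_part ρ).1 hu
  let S : Subgroup (E → Perm Lab) :=
    { carrier := {g | ρ g u = u}
      mul_mem' := by
        intro g h hg hh
        change ρ (g * h) u = u
        rw [map_mul, Module.End.mul_apply, show ρ h u = u from hh]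
        exact hg
      one_mem' := by
        change ρ 1 u = u
        rw [map_one, Module.End.one_apply]
      inv_mem' := by
        intro g hg
        change ρ g⁻¹ u = u
        have hg' : ρ g u = u := hg
        calc ρ g⁻¹ u = ρ g⁻¹ (ρ g u) := by rw [hg']
          _ = u := by rw [← Module.End.mul_apply, ← map_mul, inv_mul_cancel, map_one,
            Module.End.one_apply] }
  have hS : (fun e => Equiv.addRight (y e) : E → Perm Lab) ∈ S := by
    refine Subgroup.pi_mem_of_mulSingle_mem _ fun e => ?_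
    change ρ (Pi.mulSingle e (Equiv.addRight (y e))) u = u
    by_cases he : e ∈ T
    · rw [hy e he]
      have h5 : (Equiv.addRight (0 : Lab) : Perm Lab) = 1 := by
        ext x : 1
        rw [Equiv.coe_addRight, Perm.one_apply]
        dsimp only
        rw [add_zero]
      rw [h5, Pi.mulSingle_one, map_one, Module.End.one_apply]
    · have h3 := act_avg ρ e (y e) u
      rw [h2 e he] at h3
      exact h3
  exact hS

/-- A representation of dimension less than `2 ^ (k + 1)` is spanned by vectors fixed by the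
translations which are trivial on a set of at most `k` elements. -/
theorem span_fixed [Fintype E] [FiniteDimensional ℝ M] {k : ℕ}
    (hdim : finrank ℝ M < 2 ^ (k + 1)) :
    Submodule.span ℝ {u : M | ∃ T : Finset E, T.card ≤ k ∧ ∀ y : E → Lab, (∀ e ∈ T, y e = 0) →
      ρ (fun e => Equiv.addRight (y e)) u = u} = ⊤ := by
  rw [eq_top_iff]
  intro v _
  refine Submodule.span_mono ?_ (mem_span_part ρ Finset.univ v)
  rintro u ⟨T, -, h1, h2⟩
  have hu : u ∈ part ρ T := (mem_part ρ).2 ⟨h1, fun e he => h2 e (Finset.mem_univ e) he⟩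
  by_cases hu0 : u = 0
  · subst hu0
    exact ⟨∅, Nat.zero_le _, fun y _ => map_zero _⟩
  · refine ⟨T, ?_, fixed_of_mem_part ρ hu⟩
    have h3 : part ρ T ≠ ⊥ := (Submodule.ne_bot_iff _).2 ⟨u, hu, hu0⟩
    have h4 := two_pow_le_part ρ h3
    have h5 : finrank ℝ (part ρ T) ≤ finrank ℝ M := Submodule.finrank_le _
    have h6 : 2 ^ T.card < 2 ^ (k + 1) := by omega
    have := (Nat.pow_lt_pow_iff_right (by norm_num : 1 < 2)).1 h6
    omega

end rep

end Pool.Agent.Lib.MP_8d8c46_lc.SG
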