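import Pool.Agent.Lib.MP_8d8c46_lc.SOS.Core
import Pool.Agent.Lib.MP_8d8c46_lc.SG.Rep
import Pool.Agent.Lib.MP_8d8c46_lc.SG.Defs

/-!
The signed measure gives feasible solutions of every small semidefinite relaxation which is
equivariant under the permutations of the labels inside the clouds.
-/

set_option autoImplicit false

open scoped Classical
open Finset Matrix Pool.Agent.Lib.MP_8d8c46_lc.SOS

namespace Pool.Agent.Lib.MP_8d8c46_lc.SG

/-- the permutations of the vertices which permute the labels of the clouds -/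
def emb (E : Type*) (p : ℕ) : (E → Equiv.Perm Lab) →* Equiv.Perm ((E × Lab) × Pl p) where
  toFun g :=
    { toFun := fun v => ((v.1.1, g v.1.1 v.1.2), v.2)
      invFun := fun v => ((v.1.1, (g v.1.1)⁻¹ v.1.2), v.2)
      left_inv := fun v => by simp
      right_inv := fun v => by simp }
  map_one' := by
    refine Equiv.ext fun v => ?_
    rfl
  map_mul' g h := by
    refine Equiv.ext fun v => ?_
    rfl

/-- the group of the permutations of the vertices which permute the labels of the clouds -/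
def grp (E : Type*) (p : ℕ) : Subgroup (Equiv.Perm ((E × Lab) × Pl p)) := (emb E p).range

lemma card_grp (E : Type*) [Fintype E] (p : ℕ) : Nat.card (grp E p) ≤ 24 ^ Fintype.card E := by
  have h1 : Nat.card (grp E p) ≤ Nat.card (E → Equiv.Perm Lab) :=
    Nat.card_le_card_of_surjective _ (emb E p).rangeRestrict_surjective
  refine h1.trans_eq ?_
  rw [Nat.card_eq_fintype_card, Fintype.card_fun, Fintype.card_perm, Fintype.card_prod, ZMod.card]
  rfl

section rep
variable {V E₁ E₂ : Type} [Fintype V] [Fintype E₁] [Fintype E₂]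

/-- the translations of the labels given by an assignment -/
def tr (x : E₁ ⊕ E₂ → Fin 3 → V) (y : V → ZMod 2) : E₁ ⊕ E₂ → Equiv.Perm Lab :=
  fun e => Equiv.addRight (lab x y e)

omit [Fintype V] [Fintype E₁] [Fintype E₂] in
lemma perm_eq_emb (x : E₁ ⊕ E₂ → Fin 3 → V) (p : ℕ) (y : V → ZMod 2) :
    perm x p y = emb (E₁ ⊕ E₂) p (tr x y) := Equiv.ext fun _ => rfl

/-- The matrix coefficients of a small representation are functions of low degree of the
assignment. -/
lemma coef_mem_Deg (x : E₁ ⊕ E₂ → Fin 3 → V) {r k : ℕ} (hr : r < 2 ^ (k + 1))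
    (rep : (E₁ ⊕ E₂ → Equiv.Perm Lab) →* Matrix (Fin r) (Fin r) ℝ)
    (v w : Fin r → ℝ) : (fun y : V → ZMod 2 => v ⬝ᵥ (rep (tr x y) *ᵥ w)) ∈ Deg (2 * k) := by
  set ρ : (E₁ ⊕ E₂ → Equiv.Perm Lab) →* Module.End ℝ (Fin r → ℝ) :=
    (Matrix.toLinAlgEquiv' : Matrix (Fin r) (Fin r) ℝ ≃ₐ[ℝ] _).toMonoidHom.comp rep with hρ
  have hρa : ∀ g w, ρ g w = rep g *ᵥ w := fun g w => rfl
  have hspan := span_fixed ρ (k := k) (by rw [Module.finrank_fin_fun]; exact hr)
  have hw : w ∈ Submodule.span ℝ {u : Fin r → ℝ | ∃ T : Finset (E₁ ⊕ E₂), T.card ≤ k ∧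
      ∀ y : E₁ ⊕ E₂ → Lab, (∀ e ∈ T, y e = 0) → ρ (fun e => Equiv.addRight (y e)) u = u} := by
    rw [hspan]; exact Submodule.mem_top
  refine Submodule.span_induction
    (p := fun w _ => (fun y : V → ZMod 2 => v ⬝ᵥ (rep (tr x y) *ᵥ w)) ∈ Deg (2 * k))
    ?_ ?_ ?_ ?_ hw
  · rintro u ⟨T, hT, hu⟩
    refine junta_mem_Deg (U := T.biUnion (fun e => {x e 0, x e 1})) ?_ ?_
    · refine (card_biUnion_le_card_mul _ _ 2 (fun i _ => Finset.card_le_two)).trans ?_
      omega
    · intro y y' hyy'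
      have hlab : ∀ e ∈ T, lab x y e = lab x y' e := by
        intro e he
        unfold lab
        rw [hyy' (x e 0) (mem_biUnion.2 ⟨e, he, by simp⟩),
          hyy' (x e 1) (mem_biUnion.2 ⟨e, he, by simp⟩)]
      have hself : ∀ a : Lab, a + a = 0 := fun a => by
        ext
        · exact CharTwo.add_self_eq_zero _
        · exact CharTwo.add_self_eq_zero _
      have h1 : tr x y = tr x y' * fun e => Equiv.addRight (lab x y' e + lab x y e) := by
        funext e
        rw [Pi.mul_apply]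
        unfold tr
        rw [addRight_mul, ← add_assoc, hself, zero_add]
      have h2 : ρ (tr x y) u = ρ (tr x y') u := by
        rw [h1, map_mul, Module.End.mul_apply, hu _ fun e he => by rw [hlab e he, hself]]
      rw [hρa, hρa] at h2
      simp only [h2]
  · have : (fun y : V → ZMod 2 => v ⬝ᵥ (rep (tr x y) *ᵥ (0 : Fin r → ℝ))) = 0 := by
      funext y; simp
    rw [this]; exact Submodule.zero_mem _
  · intro a b _ _ ha hb
    have : (fun y : V → ZMod 2 => v ⬝ᵥ (rep (tr x y) *ᵥ (a + b))) =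
        (fun y : V → ZMod 2 => v ⬝ᵥ (rep (tr x y) *ᵥ a)) +
        (fun y : V → ZMod 2 => v ⬝ᵥ (rep (tr x y) *ᵥ b)) := by
      funext y
      rw [Pi.add_apply, Matrix.mulVec_add, dotProduct_add]
    rw [this]; exact Submodule.add_mem _ ha hb
  · intro c a _ ha
    have : (fun y : V → ZMod 2 => v ⬝ᵥ (rep (tr x y) *ᵥ (c • a))) =
        c • (fun y : V → ZMod 2 => v ⬝ᵥ (rep (tr x y) *ᵥ a)) := by
      funext y
      rw [Pi.smul_apply, Matrix.mulVec_smul, dotProduct_smul]
    rw [this]; exact Submodule.smul_mem _ _ ha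

end rep

section core
variable {V E₁ E₂ : Type} [Fintype V] [Fintype E₁] [Fintype E₂] {p : ℕ} [Fact p.Prime]
  {x : E₁ ⊕ E₂ → Fin 3 → V} {b : E₁ ⊕ E₂ → ZMod 2} {s : ℕ}

/-- The feasible solution of a small equivariant semidefinite relaxation. -/
theorem sdp_exists {δ : ℚ} {d k : ℕ} (hexp : Expands x s) (hk : 8 * k ≤ s)
    (P : EquivariantSDP (((E₁ ⊕ E₂) × Lab) × Pl p) (grp (E₁ ⊕ E₂) p) δ d)
    (hP : P.size < 2 ^ (k + 1))
    (hδ : ((Fintype.card E₁ * p ^ 2 : ℕ) : ℚ) = δ * Fintype.card (((E₁ ⊕ E₂) × Lab) × Pl p))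
    {G : SimpleGraph (((E₁ ⊕ E₂) × Lab) × Pl p)} (hG : Regular G d) :
    ∃ Y ∈ P.space, Y.PosSemidef ∧
      P.obj G Y = ∑ y, nu x b s y * (expansion G d (setOf x p y) : ℝ) := by
  have hcard : ∀ y : V → ZMod 2, ((setOf x p y).card : ℚ) =
      δ * Fintype.card (((E₁ ⊕ E₂) × Lab) × Pl p) := fun y => by rw [card_setOf]; exact hδ
  have hfeas := fun y : V → ZMod 2 => P.feasible (setOf x p y) (hcard y)
  have hnu : ∑ y ∈ (univ : Finset (V → ZMod 2)), nu x b s y = 1 := sum_nu hexp
  have hlin : univ.affineCombination ℝ (fun y => P.point (setOf x p y)) (nu x b s) =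
      ∑ y, nu x b s y • P.point (setOf x p y) :=
    affineCombination_eq_linear_combination _ _ _ hnu
  refine ⟨∑ y, nu x b s y • P.point (setOf x p y), ?_, ?_, ?_⟩
  · rw [← hlin]
    refine (affineSpan_le.2 ?_) (affineCombination_mem_affineSpan hnu _)
    rintro _ ⟨y, rfl⟩
    exact (hfeas y).1
  · refine Matrix.PosSemidef.of_dotProduct_mulVec_nonneg ?_ ?_
    · unfold Matrix.IsHermitian
      rw [Matrix.conjTranspose_sum]
      refine sum_congr rfl (fun y _ => ?_)
      rw [Matrix.conjTranspose_smul, (hfeas y).2.isHermitian]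
      simp
    · intro z
      obtain ⟨m, v, hv⟩ := Matrix.posSemidef_iff_eq_sum_vecMulVec.1 (hfeas 0).2
      have hv' : P.point (setOf x p 0) = ∑ i, vecMulVec (v i) (v i) := by
        rw [hv]
        refine sum_congr rfl (fun i _ => ?_)
        congr 1
      obtain ⟨R, hR⟩ : ∃ R : (E₁ ⊕ E₂ → Equiv.Perm Lab) →* Matrix (Fin P.size) (Fin P.size) ℝ,
        R = P.rep.comp (emb (E₁ ⊕ E₂) p).rangeRestrict := ⟨_, rfl⟩
      have hpt : ∀ y : V → ZMod 2, P.point (setOf x p y) =
          R (tr x y) * (∑ i, vecMulVec (v i) (v i)) * (R (tr x y))ᵀ := by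
        intro y
        have h1 := P.equivariant ((emb (E₁ ⊕ E₂) p).rangeRestrict (tr x y)) _ (hcard 0)
        rw [MonoidHom.coe_rangeRestrict, ← perm_eq_emb, ← setOf_eq_map, hv'] at h1
        rw [h1, hR]
        rfl
      rw [show star z = z from rfl, Matrix.sum_mulVec, dotProduct_sum]
      have h1 : ∀ y : V → ZMod 2, z ⬝ᵥ ((nu x b s y • P.point (setOf x p y)) *ᵥ z) =
          ∑ i, nu x b s y * (z ⬝ᵥ (R (tr x y) *ᵥ v i)) ^ 2 := by
        intro y
        rw [Matrix.smul_mulVec, dotProduct_smul, hpt y, quad_conj, smul_eq_mul, mul_sum]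
      rw [sum_congr rfl (fun y _ => h1 y), sum_comm]
      refine sum_nonneg (fun i _ => ?_)
      exact nu_sq_nonneg (m := 2 * k) hexp (by omega) (coef_mem_Deg x hP R z (v i))
  · rw [← hlin, univ.map_affineCombination (fun y => P.point (setOf x p y)) (nu x b s) hnu
      (P.obj G), affineCombination_eq_linear_combination _ _ _ hnu]
    refine sum_congr rfl (fun y _ => ?_)
    rw [Function.comp_apply, P.exact G hG _ (hcard y), smul_eq_mul]

end core

end Pool.Agent.Lib.MP_8d8c46_lc.SG
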