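import Pool.Agent.Lib.MP_8d8c46_lc.SOS.Main
import Pool.Agent.Lib.MP_8d8c46_lc.SG.Core

/-!
Assembly: pairs of a Yes and a No instance that are hard for sum-of-squares relaxations of linear
level and for semidefinite relaxations of exponential size which are equivariant under a small
group of permutations.
-/

set_option autoImplicit false

open scoped Classical
open Finset

namespace Pool.Agent.Lib.MP_8d8c46_lc

/-- The group has at most `2 ^ (ε n)` elements. -/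
lemma card_grp_le {n₁ n₂ D p : ℕ} [Fact p.Prime] {ε : ℝ} (hε : 0 < ε) (hp : 1 ≤ p)
    (hpε : 2 / ε ≤ p) :
    (Nat.card (SG.grp ((Fin n₁ × Fin D) ⊕ (Fin n₂ × Fin D)) p) : ℝ) ≤
      2 ^ (ε * Fintype.card (Vx n₁ n₂ D p)) := by
  rw [card_Vx]
  obtain ⟨m, hm⟩ : ∃ m, m = (n₁ + n₂) * D := ⟨_, rfl⟩
  have h1 : Nat.card (SG.grp ((Fin n₁ × Fin D) ⊕ (Fin n₂ × Fin D)) p) ≤ 24 ^ m := by
    refine (SG.card_grp _ p).trans_eq ?_
    rw [Fintype.card_sum, Fintype.card_prod, Fintype.card_prod, Fintype.card_fin,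
      Fintype.card_fin, Fintype.card_fin, hm, add_mul]
  have h2 : (24 : ℝ) ^ m ≤ 2 ^ (5 * m) := by
    rw [pow_mul]
    exact pow_le_pow_left₀ (by norm_num) (by norm_num) m
  have h3 : ((5 * m : ℕ) : ℝ) ≤ ε * ((4 * (n₁ + n₂) * D * p ^ 2 : ℕ) : ℝ) := by
    have h4 : (2 : ℝ) ≤ ε * p := by
      rw [div_le_iff₀ hε] at hpε
      linarith
    have h5 : (1 : ℝ) ≤ p := by exact_mod_cast hp
    have h6 : (5 : ℝ) ≤ 4 * (ε * p) * p := by nlinarith
    have h7 : (0 : ℝ) ≤ m := Nat.cast_nonneg _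
    have h8 : ((4 * (n₁ + n₂) * D * p ^ 2 : ℕ) : ℝ) = 4 * m * p ^ 2 := by
      rw [hm]
      push_cast
      ring
    rw [h8]
    push_cast
    calc (5 : ℝ) * m ≤ (4 * (ε * p) * p) * m := mul_le_mul_of_nonneg_right h6 h7
      _ = ε * (4 * m * p ^ 2) := by ring
  calc (Nat.card (SG.grp ((Fin n₁ × Fin D) ⊕ (Fin n₂ × Fin D)) p) : ℝ) ≤ 24 ^ m := by
        exact_mod_cast h1
    _ ≤ 2 ^ (5 * m) := h2
    _ = (2 : ℝ) ^ ((5 * m : ℕ) : ℝ) := (Real.rpow_natCast _ _).symm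
    _ ≤ _ := Real.rpow_le_rpow_of_exponent_le (by norm_num) h3

/-- For every `η ≥ 0.496`, `δ ≤ 1/8` and `ε > 0` there are arbitrarily large pairs of a Yes and a
No instance of the same bounded degree, and a group of at most `2 ^ (ε n)` permutations of the
vertices, which are hard for sum-of-squares relaxations of linear level and for semidefinite
relaxations of exponential size which are equivariant under the group. -/
theorem sg_main {η δ : ℚ} (hη : 496 / 1000 ≤ η) (hδ0 : 0 < δ) (hδ : δ ≤ 1 / 8) {ε : ℝ}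
    (hε : 0 < ε) :
    ∃ (d : ℕ) (c : ℝ), 0 < c ∧ ∀ N₀ : ℕ, ∃ (V : Type) (_ : Fintype V) (G H : SimpleGraph V)
      (Γ : Subgroup (Equiv.Perm V)),
      N₀ ≤ Fintype.card V ∧ Regular G d ∧ Regular H d ∧ SSEYes η δ G ∧ SSENo η δ H ∧
      (Nat.card Γ : ℝ) ≤ 2 ^ (ε * Fintype.card V) ∧
      (∃ X : Finset V → ℝ, SOS.Lasserre ⌊c * Fintype.card V⌋₊ (δ * Fintype.card V) X ∧
        SOS.pseudoExpansion H d (δ * Fintype.card V) X ≤ η) ∧
      (∀ P : SG.EquivariantSDP V Γ δ d, (P.size : ℝ) ≤ 2 ^ (c * Fintype.card V) →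
        ∃ Y ∈ P.space, Y.PosSemidef ∧ P.obj H Y ≤ η) := by
  have hδr : (0 : ℝ) < (δ : ℝ) := by exact_mod_cast hδ0
  obtain ⟨D₁, hsys⟩ := exists_system (ε := 3 * δ / 10000) (by positivity)
  obtain ⟨D₂, hperm⟩ := exists_perms (ε := 3 * δ / 10000) (by positivity)
  obtain ⟨D', hD'⟩ : ∃ D', D' = D₁ + D₂ + 1 := ⟨_, rfl⟩
  have hD'pos : 0 < D' := by omega
  obtain ⟨D, hD⟩ : ∃ D, D = 1000 * D' := ⟨_, rfl⟩
  obtain ⟨p, hp1', hprime⟩ := Nat.exists_infinite_primes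
    (2 * (9 + 153 * D') + 1 + 10 ^ 9 + ⌈2 / ε⌉₊)
  have hp1 : 2 * (9 + 153 * D') + 1 + 10 ^ 9 ≤ p := by omega
  have hpε : 2 / ε ≤ p := (Nat.le_ceil _).trans (by exact_mod_cast (by omega : ⌈2 / ε⌉₊ ≤ p))
  have : Fact p.Prime := ⟨hprime⟩
  obtain ⟨a, ha⟩ : ∃ a, a = δ.num.toNat := ⟨_, rfl⟩
  have hanum : (a : ℤ) = δ.num := by rw [ha]; exact Int.toNat_of_nonneg (Rat.num_nonneg.2 hδ0.le)
  have hapos : 0 < a := by
    have : 0 < δ.num := Rat.num_pos.2 hδ0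
    omega
  have hdelta : δ = (a : ℚ) / δ.den := by
    have := Rat.num_div_den δ
    rw [← hanum, Int.cast_natCast] at this
    exact this.symm
  have hdenpos : 0 < δ.den := δ.den_pos
  have hden' : (0 : ℚ) < δ.den := by exact_mod_cast hdenpos
  have hab : 8 * a ≤ δ.den := by
    rw [hdelta, div_le_div_iff₀ hden' (by norm_num)] at hδ
    have : (8 * a : ℚ) ≤ δ.den := by linarith
    exact_mod_cast this
  obtain ⟨β, hβ⟩ : ∃ β : ℝ, β = 1 / (432 * D) := ⟨_, rfl⟩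
  have hDpos : 0 < D := by omega
  have hDr : (0 : ℝ) < D := by exact_mod_cast hDpos
  have hD1r : (1 : ℝ) ≤ D := by exact_mod_cast hDpos
  have hβ0 : 0 < β := by rw [hβ]; positivity
  have hp0 : (0 : ℝ) < p := by exact_mod_cast hprime.pos
  have hdenr : (0 : ℝ) < δ.den := by exact_mod_cast hdenpos
  have har : (0 : ℝ) < a := by exact_mod_cast hapos
  have ha1r : (1 : ℝ) ≤ a := by exact_mod_cast hapos
  obtain ⟨c, hc⟩ : ∃ c : ℝ, c = β ^ 4 * a / (96 * δ.den * D ^ 2 * p ^ 2) := ⟨_, rfl⟩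
  have hc0 : 0 < c := by rw [hc]; positivity
  refine ⟨2 * (p - 1) * (18 * D + 153 * D'), c, hc0, fun N₀ => ?_⟩
  obtain ⟨t, ht⟩ : ∃ t, t = N₀ + 1 + ⌈8 / β ^ 4⌉₊ := ⟨_, rfl⟩
  have htpos : 0 < t := by omega
  obtain ⟨n₁, hn₁⟩ : ∃ n₁, n₁ = 4 * a * t := ⟨_, rfl⟩
  obtain ⟨n₂, hn₂⟩ : ∃ n₂, n₂ = (δ.den - 4 * a) * t := ⟨_, rfl⟩
  have hn₁pos : 0 < n₁ := by rw [hn₁]; positivity
  have hn₁₂ : n₁ ≤ n₂ := by rw [hn₁, hn₂]; exact Nat.mul_le_mul_right _ (by omega)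
  have hn₂pos : 0 < n₂ := by omega
  have hsum : n₁ + n₂ = δ.den * t := by
    rw [hn₁, hn₂, ← add_mul]
    congr 1
    omega
  have hδn : (n₁ : ℚ) = 4 * δ * (n₁ + n₂) := by
    have h1 : ((n₁ : ℚ) + n₂) = δ.den * t := by exact_mod_cast hsum
    rw [h1]
    have h2 : δ * δ.den = a := by
      rw [hdelta]
      have : ((a : ℚ) / δ.den).den = δ.den := by rw [← hdelta]
      rw [this]
      field_simp
    calc (n₁ : ℚ) = 4 * a * t := by rw [hn₁]; push_cast; ring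
      _ = 4 * (δ * δ.den) * t := by rw [h2]
      _ = _ := by ring
  obtain ⟨S, hS⟩ : ∃ S, S = ⌊β ^ 4 * n₁ / 2⌋₊ := ⟨_, rfl⟩
  have hS1 : 2 * (S : ℝ) ≤ β ^ 4 * n₁ := by
    have : (S : ℝ) ≤ β ^ 4 * n₁ / 2 := by rw [hS]; exact Nat.floor_le (by positivity)
    linarith
  have hn₁₂' : (n₁ : ℝ) ≤ n₂ := by exact_mod_cast hn₁₂
  have hS2 : 2 * (S : ℝ) ≤ β ^ 4 * n₂ :=
    hS1.trans (mul_le_mul_of_nonneg_left hn₁₂' (by positivity))
  have hS4 : 4 ≤ S := by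
    rw [hS]
    refine Nat.le_floor ?_
    have h1 : 8 / β ^ 4 ≤ t := by
      have := Nat.le_ceil (8 / β ^ 4)
      rw [ht]
      push_cast
      have h2 : (0 : ℝ) ≤ N₀ := Nat.cast_nonneg _
      linarith
    rw [div_le_iff₀ (by positivity)] at h1
    have h3 : (t : ℝ) ≤ n₁ := by
      rw [hn₁]
      push_cast
      have : (0 : ℝ) ≤ t := Nat.cast_nonneg _
      nlinarith
    have h4 : (t : ℝ) * β ^ 4 ≤ n₁ * β ^ 4 := mul_le_mul_of_nonneg_right h3 (by positivity)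
    push_cast
    linarith
  obtain ⟨ρ, hρ1, hρ2⟩ := hperm D n₁ S (by omega) hDpos hn₁pos (by rw [← hβ]; exact hS1)
  obtain ⟨ω₂, h21, h22, h23⟩ := hsys D n₂ S (by omega) hDpos hn₂pos (by rw [← hβ]; exact hS2)
  -- a good right-hand side
  obtain ⟨y₀, hy₀⟩ : ∃ y₀ : Fin n₁ × Fin D → ZMod 2,
      QR (mkO ρ y₀) test1 (3 * δ / 10000) ∧ QR (mkO ρ y₀) test2 (3 * δ / 10000) := by
    by_contra hcon
    push Not at hcon
    have h1 : ∑ y : Fin n₁ × Fin D → ZMod 2, indR (¬ (QR (mkO ρ y) test1 (3 * δ / 10000) ∧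
        QR (mkO ρ y) test2 (3 * δ / 10000))) = Fintype.card (Fin n₁ × Fin D → ZMod 2) := by
      rw [sum_congr rfl (g := fun _ => (1 : ℝ))]
      · rw [sum_const, card_univ, nsmul_eq_mul, mul_one]
      · intro y _
        unfold indR
        exact if_pos (fun h => hcon y h.1 h.2)
    have h2 : (0 : ℝ) < Fintype.card (Fin n₁ × Fin D → ZMod 2) := by
      exact_mod_cast Fintype.card_pos
    rw [h1] at hρ2
    linarith
  obtain ⟨ω₁, hω₁⟩ : ∃ ω₁, ω₁ = mkO ρ y₀ := ⟨_, rfl⟩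
  rw [← hω₁] at hy₀
  have hexp0 : Expands (rx (mkO ρ 0)) (S / 2) := expands_of_not_bad (by omega) hρ1
  have hexp1 : Expands (rx ω₁) (S / 2) := by rw [hω₁]; exact hexp0
  have hexp : Expands (sumx (rx ω₁) (rx ω₂)) (S / 2) :=
    expands_sum hexp1 (expands_of_not_bad (by omega) h23)
  -- the bound on the number of rounds
  have hround : ∀ k : ℕ, (k : ℝ) ≤ c * Fintype.card (Vx n₁ n₂ D p) → 48 * k ≤ S := by
    intro k hk
    rw [card_Vx] at hk
    push_cast at hk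
    have h1 : ((n₁ : ℝ) + n₂) = δ.den * t := by exact_mod_cast hsum
    rw [h1] at hk
    have h2 : c * (4 * (δ.den * t) * D * p ^ 2) = β ^ 4 * n₁ / (96 * D) := by
      rw [hc, hn₁]; push_cast; field_simp
    rw [h2] at hk
    have h3 : β ^ 4 * n₁ / (96 * D) ≤ β ^ 4 * n₁ / 96 := by
      refine div_le_div_of_nonneg_left (by positivity) (by norm_num) ?_
      linarith
    rw [hS]
    refine Nat.le_floor ?_
    push_cast
    linarith
  have hreg2 : Regular (gr ω₁ ω₂ (Sum.elim (rb ω₁) (rb ω₂)) (153 * D') p)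
      (2 * (p - 1) * (18 * D + 153 * D')) := gr_regular _ _ _ (by omega)
  have hwp : ∀ q r, 2 * wgt (sumx (rx ω₁) (rx ω₂)) (Sum.elim (rb ω₁) (rb ω₂)) (153 * D') q r < p := by
    intro q r
    have := wgt_le (sumx (rx ω₁) (rx ω₂)) (Sum.elim (rb ω₁) (rb ω₂)) (153 * D') q r
    omega
  have hE : 0 < Fintype.card (Fin n₁ × Fin D) := by
    rw [Fintype.card_prod, Fintype.card_fin, Fintype.card_fin]
    positivity
  have hreg1 : ∀ (e : Fin n₁ × Fin D) (i j : Fin 3), (@Finset.filter _ (fun e' : Fin n₁ × Fin D =>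
      sumx (rx ω₁) (rx ω₂) (Sum.inl e') j = sumx (rx ω₁) (rx ω₂) (Sum.inl e) i)
      (fun _ => Classical.propDecidable _) univ).card = D := by
    intro e i j
    refine Eq.trans ?_ (rx_reg ω₁ j (rx ω₁ e i))
    refine congrArg Finset.card ?_
    ext e'
    simp only [mem_filter, mem_univ, true_and, sumx, Sum.elim_inl, Sum.inl.injEq]
  have hval := SOS.nu_expansion (b := Sum.elim (rb ω₁) (rb ω₂)) (u := 153 * D') (D := D)
    (δ := 18 * D + 153 * D') (hW := wgt_symm _ _ _) hexp (by omega)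
    hreg1 hwp hE hreg2 (by
      have h1 : 1 ≤ p - 1 := by omega
      calc 1 = 1 * 1 := by norm_num
        _ ≤ (2 * (p - 1)) * (18 * D + 153 * D') := Nat.mul_le_mul (by omega) (by omega))
  have hηval : 1 - ((9 * D + 153 * D' : ℕ) : ℝ) / ((18 * D + 153 * D' : ℕ) : ℝ) ≤ (η : ℝ) := by
    have hη' : (496 / 1000 : ℝ) ≤ η := by
      have : ((496 / 1000 : ℚ) : ℝ) ≤ (η : ℝ) := Rat.cast_le.2 hη
      push_cast at this
      exact this
    refine le_trans ?_ hη'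
    have hD'r : (0 : ℝ) < D' := by exact_mod_cast hD'pos
    rw [hD]
    push_cast
    rw [sub_le_iff_le_add, ← sub_le_iff_le_add', le_div_iff₀ (by positivity)]
    nlinarith
  have hsize : (((Fintype.card (Fin n₁ × Fin D) * p ^ 2 : ℕ) : ℚ)) =
      δ * Fintype.card (Vx n₁ n₂ D p) := by
    rw [card_Vx, Fintype.card_prod, Fintype.card_fin, Fintype.card_fin]
    push_cast
    have h1 : (n₁ : ℚ) * D * p ^ 2 = (4 * δ * (n₁ + n₂)) * D * p ^ 2 := by rw [← hδn]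
    rw [h1]; ring
  have hsizeR : (δ : ℝ) * Fintype.card (Vx n₁ n₂ D p) =
      ((Fintype.card (Fin n₁ × Fin D) * p ^ 2 : ℕ) : ℝ) := by
    have : (((Fintype.card (Fin n₁ × Fin D) * p ^ 2 : ℕ) : ℚ) : ℝ) =
        ((δ * Fintype.card (Vx n₁ n₂ D p) : ℚ) : ℝ) := by rw [hsize]
    push_cast at this ⊢
    exact this.symm
  refine ⟨Vx n₁ n₂ D p, inferInstance, gr ω₁ ω₂ (Sum.elim (fun _ => 0) (rb ω₂)) (153 * D') p,
    gr ω₁ ω₂ (Sum.elim (rb ω₁) (rb ω₂)) (153 * D') p,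
    SG.grp ((Fin n₁ × Fin D) ⊕ (Fin n₂ × Fin D)) p, ?_, gr_regular _ _ _ (by omega),
    hreg2, ?_, ?_, ?_, ?_, ?_⟩
  · rw [card_Vx]
    have h1 : 1 ≤ D * p ^ 2 := Nat.one_le_iff_ne_zero.2 (by
      have := hprime.pos
      positivity)
    have h2 : N₀ ≤ n₁ + n₂ := by
      rw [hsum]
      calc N₀ ≤ t := by omega
        _ = 1 * t := (one_mul _).symm
        _ ≤ δ.den * t := Nat.mul_le_mul_right _ hdenpos
    calc N₀ ≤ n₁ + n₂ := h2
      _ = 1 * (n₁ + n₂) * 1 := by ring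
      _ ≤ 4 * (n₁ + n₂) * (D * p ^ 2) := Nat.mul_le_mul (Nat.mul_le_mul_right _ (by omega)) h1
      _ = _ := by ring
  · exact gr_yes' hD hη hD'pos hn₁pos hδn ω₁ ω₂ (by omega) (rb ω₂)
  · exact gr_no' hD hη hδ0 hD'pos hn₁pos hn₁₂ hδn (by omega) (by omega) hy₀.1 hy₀.2 h21 h22
  · exact card_grp_le hε hprime.one_lt.le hpε
  · have hk := hround ⌊c * Fintype.card (Vx n₁ n₂ D p)⌋₊ (Nat.floor_le (by positivity))
    obtain ⟨X, hX1, hX2⟩ := SOS.lasserre_exists' (b := Sum.elim (rb ω₁) (rb ω₂))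
      (k := ⌊c * Fintype.card (Vx n₁ n₂ D p)⌋₊) hexp (by omega)
      (gr ω₁ ω₂ (Sum.elim (rb ω₁) (rb ω₂)) (153 * D') p) (2 * (p - 1) * (18 * D + 153 * D'))
      (fun a b => Classical.propDecidable (a = b))
    refine ⟨X, ?_, ?_⟩
    · rw [hsizeR]; exact hX1
    · rw [hsizeR, hX2]
      exact hval.le.trans hηval
  · intro P hP
    have hk := hround ⌊c * Fintype.card (Vx n₁ n₂ D p)⌋₊ (Nat.floor_le (by positivity))
    have hP' : P.size < 2 ^ (⌊c * Fintype.card (Vx n₁ n₂ D p)⌋₊ + 1) := by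
      have h1 : (P.size : ℝ) < 2 ^ ((⌊c * Fintype.card (Vx n₁ n₂ D p)⌋₊ : ℝ) + 1) :=
        lt_of_le_of_lt hP (Real.rpow_lt_rpow_of_exponent_lt (by norm_num) (Nat.lt_floor_add_one _))
      have h2 : (2 : ℝ) ^ ((⌊c * Fintype.card (Vx n₁ n₂ D p)⌋₊ : ℝ) + 1) =
          ((2 ^ (⌊c * Fintype.card (Vx n₁ n₂ D p)⌋₊ + 1) : ℕ) : ℝ) := by
        push_cast
        rw [← Real.rpow_natCast]
        push_cast
        rfl
      rw [h2] at h1
      exact_mod_cast h1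
    obtain ⟨Y, hY1, hY2, hY3⟩ := SG.sdp_exists (b := Sum.elim (rb ω₁) (rb ω₂)) hexp
      (k := ⌊c * Fintype.card (Vx n₁ n₂ D p)⌋₊) (by omega) P hP' hsize hreg2
    refine ⟨Y, hY1, hY2, ?_⟩
    rw [hY3]
    exact hval.le.trans hηval

end Pool.Agent.Lib.MP_8d8c46_lc
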